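import Pool.Agent.P.MP_dba4bb_co.Pw.F
import Pool.Agent.P.MP_dba4bb_co.Pw.G

namespace Pool.Agent.Results.MP_dba4bb_co.DiagonalStrip

open Pool.Agent.P.MP_dba4bb_co Pool.Agent.P.MP_dba4bb_co.Ex

/-- A long `1 × r` strip folds onto a cube of side at least `√(r/6) - √2/6 - ε`. -/
theorem result : ∀ ε : ℝ, 0 < ε → ∃ r₀ : ℝ, ∀ r : ℝ, r₀ ≤ r →
    ∃ s : ℝ, √(r / 6) - √2 / 6 - ε ≤ s ∧ Folds 1 r s := by
  intro ε hε
  wlog h1 : ε ≤ 1 generalizing ε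
  · obtain ⟨r₀, h⟩ := this 1 one_pos le_rfl
    refine ⟨r₀, fun r hr => ?_⟩
    obtain ⟨s, h2, h3⟩ := h r hr
    exact ⟨s, by linarith, h3⟩
  obtain ⟨X₀, hX⟩ := Pw.pair hε h1
  refine ⟨6 * (|X₀| + 2) ^ 2, fun r hr => ?_⟩
  have t2 : √2 ^ 2 = 2 := Real.sq_sqrt (by norm_num)
  have t0 : 1 ≤ √2 := Real.one_le_sqrt.2 (by norm_num)
  have t1 : √2 ≤ 3 / 2 := by nlinarith
  have a0 := abs_nonneg X₀
  have a1 : |X₀| + 2 ≤ √(r / 6) := Real.le_sqrt_of_sq_le (by linarith)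
  have a2 : √(r / 6) ^ 2 = r / 6 := Real.sq_sqrt (by nlinarith)
  obtain ⟨S, hS⟩ : ∃ S, S = √(r / 6) - √2 / 6 - ε / 2 := ⟨_, rfl⟩
  have a3 : |X₀| + 1 ≤ S := by linarith
  obtain ⟨p, q, b1, b2, b3, b4, b5, b6, b7, b8⟩ := hX (2 * √2 * S)
    (by nlinarith [le_abs_self X₀])
  refine ⟨_, ?_, Pw.folds ⟨b1, b2, b3, b4, b5⟩ ?_⟩
  · have : 2 * S - ε ≤ √((p : ℝ) ^ 2 + (q : ℝ) ^ 2) := by
      apply Real.le_sqrt_of_sq_le
      have c1 : (√2 * (2 * S - ε)) ^ 2 ≤ (2 * √2 * S - ε) ^ 2 :=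
        pow_le_pow_left₀ (mul_nonneg (by linarith) (by linarith)) (by nlinarith) 2
      rw [mul_pow, t2] at c1
      linarith
    linarith
  · have e : r = 6 * (S + √2 / 6 + ε / 2) ^ 2 := by
      rw [show S + √2 / 6 + ε / 2 = √(r / 6) by linarith, a2]; ring
    rw [mul_pow, mul_pow, t2] at b7
    have c1 : 0 ≤ ε * S := mul_nonneg hε.le (by linarith)
    unfold Pw.cc
    rw [e]
    nlinarith [sq_nonneg (√2 / 6 + ε / 2), mul_le_mul_of_nonneg_left t1 c1]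

end Pool.Agent.Results.MP_dba4bb_co.DiagonalStrip
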