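import Pool.Agent.P.MP_dba4bb_co.Ex.Final

namespace Pool.Agent.Results.MP_dba4bb_co.ExactNear

open Set Pool.Agent.P.MP_dba4bb_co Pool.Agent.P.MP_dba4bb_co.Ex

/-- The exact side of the largest cube wrapped by a `1 × r` rectangle, for `r` slightly above 1. -/
theorem result : ∃ ε : ℝ, 0 < ε ∧ ∀ r ∈ Ioo (1 : ℝ) (1 + ε),
    (∃ u ∈ Ioc (0 : ℝ) (1 / 1000), rr u = r) ∧ ∀ u ∈ Ioc (0 : ℝ) (1 / 1000), rr u = r →
      IsGreatest {s : ℝ | Folds 1 r s} (sg u) ∧ IsGreatest {s : ℝ | Wraps 1 r s} (sg u) := by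
  obtain ⟨u0, hu0, hU⟩ := upper
  obtain ⟨ε, hε, hI⟩ := sIvt (1 / 1000) (by norm_num)
  refine ⟨min ε (u0 / 4), by positivity, fun r hr => ⟨?_, ?_⟩⟩
  · obtain ⟨u, hu, e⟩ := hI r ⟨hr.1, hr.2.trans_le (by gcongr; exact min_le_left _ _)⟩
    exact ⟨u, ⟨hu.1, hu.2.le⟩, e.symm⟩
  · rintro u ⟨h0, h1⟩ rfl
    have h2 := rr_lower h0 h1
    have h3 : u < u0 := by
      have := hr.2
      have := min_le_right ε (u0 / 4)
      linarith
    exact ⟨⟨lower u h0 h1, fun s hs => hU u h0 h3 s (Top.wraps_of_folds hs)⟩,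
      ⟨Top.wraps_of_folds (lower u h0 h1), fun s hs => hU u h0 h3 s hs⟩⟩

end Pool.Agent.Results.MP_dba4bb_co.ExactNear
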