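import Pool.Agent.P.MP_dba4bb_co.H

namespace Pool.Agent.Results.MP_dba4bb_co.LongStrip

open Pool.Agent.P.MP_dba4bb_co

/-- A `1 × r` strip that wraps a cube of side `s` has `s ≤ √(r/6) - c` once `r` is large. -/
theorem result : ∃ c : ℝ, 0 < c ∧ ∃ r₀ : ℝ, ∀ r s : ℝ, r₀ ≤ r → Wraps 1 r s →
    s ≤ √(r / 6) - c := by
  refine ⟨1 / 10 ^ 17, by norm_num, 6 * 10 ^ 36, fun r s hr h => ?_⟩
  have h1 : 10 ^ 18 ≤ √(r / 6) := Real.le_sqrt_of_sq_le (by linarith)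
  have h2 : √(r / 6) ^ 2 = r / 6 := Real.sq_sqrt (by linarith)
  by_contra hc
  push Not at hc
  have h3 := h.scale one_pos (by linarith) (by linarith)
  nlinarith

end Pool.Agent.Results.MP_dba4bb_co.LongStrip
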